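import Pool.Agent.W387.R.Final

/-!
A finitely presented subgroup of a right-angled Artin group whose Dehn function is
super-exponential.
-/

set_option autoImplicit false

namespace Pool.Agent.Results.MP_8cfc4a_al.RaagSuperexpDehn

/-- The right-angled Artin group of a graph `Γ` on `Fin k`: one generator for each vertex, and
adjacent vertices commute. -/
abbrev RAAG {k : ℕ} (Γ : SimpleGraph (Fin k)) : Type :=
  PresentedGroup {r : FreeGroup (Fin k) | ∃ a : Fin k, ∃ b : Fin k, Γ.Adj a b ∧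
    r = FreeGroup.of a * FreeGroup.of b * (FreeGroup.of a)⁻¹ * (FreeGroup.of b)⁻¹}

/-- `w` is a product of at most `N` conjugates of relators and inverses of relators. -/
def IsProd {m : ℕ} (rels : Finset (FreeGroup (Fin m))) (N : ℕ) (w : FreeGroup (Fin m)) : Prop :=
  ∃ l : List (FreeGroup (Fin m) × FreeGroup (Fin m)), l.length ≤ N ∧
    (∀ p ∈ l, p.2 ∈ rels ∨ p.2⁻¹ ∈ rels) ∧
    w = (l.map (fun p : FreeGroup (Fin m) × FreeGroup (Fin m) => p.1 * p.2 * p.1⁻¹)).prod

/-- The Dehn function of the finite presentation with generators `Fin m` and relators `rels`: the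
least `N` such that every word `L` of length at most `n` in the generators and their inverses that
represents the identity is a product of at most `N` conjugates of relators and inverses of
relators. -/
noncomputable def dehn {m : ℕ} (rels : Finset (FreeGroup (Fin m))) (n : ℕ) : ℕ :=
  sInf {N : ℕ | ∀ L : List (Fin m × Bool), L.length ≤ n →
    (PresentedGroup.mk (↑rels : Set (FreeGroup (Fin m))) (FreeGroup.mk L)) = 1 →
    IsProd rels N (FreeGroup.mk L)}

/-- `f ⪯ g`: there is `C > 0` with `f n ≤ C * g (C n + C) + C n + C` for all `n`. -/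
def Pre (f g : ℕ → ℝ) : Prop :=
  ∃ C : ℕ, 0 < C ∧ ∀ n : ℕ, f n ≤ C * g (C * n + C) + C * n + C

/-- `f` is super-exponential: `e ^ n ⪯ f` and not `f ⪯ e ^ n`. -/
def SuperExponential (f : ℕ → ℕ) : Prop :=
  Pre (fun n => Real.exp n) (fun n => (f n : ℝ)) ∧ ¬ Pre (fun n => (f n : ℝ)) (fun n => Real.exp n)

theorem isProd_of_mem {m : ℕ} (rels : Finset (FreeGroup (Fin m))) (w : FreeGroup (Fin m))
    (hw : w ∈ Subgroup.normalClosure (↑rels : Set (FreeGroup (Fin m)))) :
    ∃ N, IsProd rels N w := by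
  unfold Subgroup.normalClosure at hw
  induction hw using Subgroup.closure_induction with
  | mem x hx =>
    obtain ⟨r, hr, hc⟩ := Group.mem_conjugatesOfSet_iff.mp hx
    obtain ⟨c, hc⟩ := isConj_iff.mp hc
    refine ⟨1, [(c, r)], by simp, ?_, ?_⟩
    · intro p hp
      rw [List.mem_singleton] at hp
      rw [hp]
      exact Or.inl hr
    · simp [hc]
  | one => exact ⟨0, [], by simp, by simp, by simp⟩
  | mul x y _ _ hx hy =>
    obtain ⟨N1, l1, h1, h2, h3⟩ := hx
    obtain ⟨N2, l2, k1, k2, k3⟩ := hy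
    refine ⟨N1 + N2, l1 ++ l2, ?_, ?_, ?_⟩
    · rw [List.length_append]
      omega
    · intro p hp
      rcases List.mem_append.mp hp with hp | hp
      · exact h2 p hp
      · exact k2 p hp
    · rw [List.map_append, List.prod_append, ← h3, ← k3]
  | inv x _ hx =>
    obtain ⟨N1, l1, h1, h2, h3⟩ := hx
    refine ⟨N1, (l1.map (fun p => (p.1, p.2⁻¹))).reverse, ?_, ?_, ?_⟩
    · rw [List.length_reverse, List.length_map]
      exact h1
    · intro p hp
      rw [List.mem_reverse, List.mem_map] at hp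
      obtain ⟨q, hq, rfl⟩ := hp
      rcases h2 q hq with h | h
      · right
        simpa using h
      · left
        exact h
    · rw [h3, List.prod_inv_reverse, List.map_reverse, List.map_map, List.map_map]
      congr 2
      apply List.map_congr_left
      intro p _
      simp [mul_assoc]

theorem isProd_mono {m : ℕ} {rels : Finset (FreeGroup (Fin m))} {N N' : ℕ} (h : N ≤ N')
    {w : FreeGroup (Fin m)} (hw : IsProd rels N w) : IsProd rels N' w := by
  obtain ⟨l, h1, h2⟩ := hw
  exact ⟨l, h1.trans h, h2⟩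

/-- the Dehn function is attained -/
theorem dehn_spec {m : ℕ} (rels : Finset (FreeGroup (Fin m))) (n : ℕ) :
    ∀ L : List (Fin m × Bool), L.length ≤ n →
      (PresentedGroup.mk (↑rels : Set (FreeGroup (Fin m))) (FreeGroup.mk L)) = 1 →
      IsProd rels (dehn rels n) (FreeGroup.mk L) := by
  have hne : {N : ℕ | ∀ L : List (Fin m × Bool), L.length ≤ n →
      (PresentedGroup.mk (↑rels : Set (FreeGroup (Fin m))) (FreeGroup.mk L)) = 1 →
      IsProd rels N (FreeGroup.mk L)}.Nonempty := by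
    classical
    have hfin : {L : List (Fin m × Bool) | L.length ≤ n}.Finite := List.finite_length_le _ n
    have hex : ∀ L : List (Fin m × Bool), ∃ N,
        (PresentedGroup.mk (↑rels : Set (FreeGroup (Fin m))) (FreeGroup.mk L)) = 1 →
        IsProd rels N (FreeGroup.mk L) := by
      intro L
      by_cases h : (PresentedGroup.mk (↑rels : Set (FreeGroup (Fin m))) (FreeGroup.mk L)) = 1
      · obtain ⟨N, hN⟩ := isProd_of_mem rels _ (PresentedGroup.mk_eq_one_iff.mp h)
        exact ⟨N, fun _ => hN⟩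
      · exact ⟨0, fun h' => absurd h' h⟩
    choose F hF using hex
    refine ⟨hfin.toFinset.sup F, fun L hL h => ?_⟩
    exact isProd_mono (Finset.le_sup (f := F) (hfin.mem_toFinset.mpr hL)) (hF L h)
  exact Nat.sInf_mem hne

theorem dehn_mono {m : ℕ} (rels : Finset (FreeGroup (Fin m))) {n n' : ℕ} (h : n ≤ n') :
    dehn rels n ≤ dehn rels n' :=
  Nat.sInf_le (fun L hL h1 => dehn_spec rels n' L (hL.trans h) h1)

theorem exp_le_four (n : ℕ) : Real.exp n ≤ 2 ^ (2 * n) := by
  have h1 : Real.exp 1 ≤ 4 := by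
    have := Real.exp_one_lt_d9
    linarith
  have h2 : Real.exp n = Real.exp 1 ^ n := by
    rw [← Real.exp_nat_mul, mul_one]
  rw [h2, pow_mul]
  have h3 : (2 : ℝ) ^ 2 = 4 := by norm_num
  rw [h3]
  exact pow_le_pow_left₀ (Real.exp_pos 1).le h1 n

theorem superExp_of {f : ℕ → ℕ} (hm : ∀ n n', n ≤ n' → f n ≤ f n')
    (hf : ∀ n : ℕ, 2 ^ (n * (n + 1) / 2) ≤ f (32 * n + 4)) : SuperExponential f := by
  constructor
  · refine ⟨100, by norm_num, fun n => ?_⟩
    have h1 := hf (n + 3)
    have h2 := hm (32 * (n + 3) + 4) (100 * n + 100) (by omega)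
    have h3 : 2 * n ≤ (n + 3) * (n + 3 + 1) / 2 := by
      rw [Nat.le_div_iff_mul_le (by norm_num)]
      nlinarith
    have h4 : (2 : ℕ) ^ (2 * n) ≤ f (100 * n + 100) :=
      (Nat.pow_le_pow_right (by norm_num) h3).trans (h1.trans h2)
    have h5 : (2 : ℝ) ^ (2 * n) ≤ (f (100 * n + 100) : ℝ) := by exact_mod_cast h4
    have h6 := exp_le_four n
    have h7 : (0 : ℝ) ≤ (n : ℝ) := Nat.cast_nonneg n
    push_cast
    nlinarith
  · rintro ⟨C, hC, h⟩
    -- compare at `32 n + 4` for `n = 200 C ^ 2 + 10`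
    obtain ⟨n, hn⟩ : ∃ n : ℕ, n = 200 * C ^ 2 + 10 := ⟨_, rfl⟩
    have h1 := h (32 * n + 4)
    simp only at h1
    have h2 : (2 : ℝ) ^ (n * (n + 1) / 2) ≤ (f (32 * n + 4) : ℝ) := by exact_mod_cast hf n
    obtain ⟨M, hM⟩ : ∃ M : ℕ, M = C * (32 * n + 4) + C := ⟨_, rfl⟩
    rw [← hM] at h1
    have h3 : Real.exp (M : ℕ) ≤ 2 ^ (2 * M) := exp_le_four M
    have hCr : (C : ℝ) ≤ 2 ^ C := by
      have : C < 2 ^ C := Nat.lt_two_pow_self
      exact_mod_cast this.le
    have hMr : (M : ℝ) < 2 ^ M := by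
      have : M < 2 ^ M := Nat.lt_two_pow_self
      exact_mod_cast this
    have hCM : C ≤ M := by
      rw [hM]
      exact Nat.le_add_left _ _
    have e1 : (C : ℝ) * Real.exp (M : ℕ) ≤ 2 ^ (3 * M) := by
      calc (C : ℝ) * Real.exp (M : ℕ) ≤ 2 ^ C * 2 ^ (2 * M) :=
            mul_le_mul hCr h3 (Real.exp_pos _).le (by positivity)
        _ ≤ 2 ^ M * 2 ^ (2 * M) :=
            mul_le_mul_of_nonneg_right (pow_le_pow_right₀ (by norm_num) hCM) (by positivity)
        _ = 2 ^ (3 * M) := by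
            rw [← pow_add]
            congr 1
            ring
    have e2 : (M : ℝ) < 2 ^ (3 * M) :=
      lt_of_lt_of_le hMr (pow_le_pow_right₀ (by norm_num) (by omega))
    have e3 : (3 * M + 1) ≤ n * (n + 1) / 2 := by
      rw [Nat.le_div_iff_mul_le (by norm_num)]
      have hC1 : C ≤ C ^ 2 := by nlinarith
      have hMn : M = 32 * (C * n) + 5 * C := by rw [hM]; ring
      have hn1 : 200 * C ≤ n := by omega
      have hn2 : 10 ≤ n := by omega
      have h8 : 200 * (C * n) ≤ n * n := by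
        calc 200 * (C * n) = (200 * C) * n := by ring
          _ ≤ n * n := Nat.mul_le_mul_right _ hn1
      have h9 : 10 * C ≤ C * n := by
        rw [mul_comm 10 C]
        exact Nat.mul_le_mul_left _ hn2
      have h10 : n * (n + 1) = n * n + n := by ring
      rw [hMn, h10]
      nlinarith
    have e4 : (2 : ℝ) ^ (3 * M) + 2 ^ (3 * M) ≤ 2 ^ (n * (n + 1) / 2) := by
      calc (2 : ℝ) ^ (3 * M) + 2 ^ (3 * M) = 2 ^ (3 * M + 1) := by rw [pow_succ]; ring
        _ ≤ 2 ^ (n * (n + 1) / 2) := pow_le_pow_right₀ (by norm_num) e3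
    have e5 : (C : ℝ) * ((32 * n + 4 : ℕ) : ℝ) + C = (M : ℝ) := by
      rw [hM]
      push_cast
      ring
    linarith

/-- There is a finite graph `Γ` and a finitely presented subgroup `H` of its right-angled Artin
group whose Dehn function is super-exponential; indeed it is at least `2 ^ (n (n + 1) / 2)` at
`32 n + 4`. -/
theorem result :
    ∃ k : ℕ, ∃ Γ : SimpleGraph (Fin k), ∃ H : Subgroup (RAAG Γ), ∃ m : ℕ,
      ∃ rels : Finset (FreeGroup (Fin m)),
        Nonempty (PresentedGroup (↑rels : Set (FreeGroup (Fin m))) ≃* ↥H) ∧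
        SuperExponential (dehn rels) ∧
        ∀ n : ℕ, 2 ^ (n * (n + 1) / 2) ≤ dehn rels (32 * n + 4) := by
  obtain ⟨k, Γ, H, m, rels, hI, hh⟩ := Pool.Agent.W387.RA.mainT
  have hb : ∀ n : ℕ, 2 ^ (n * (n + 1) / 2) ≤ dehn rels (32 * n + 4) := by
    intro n
    obtain ⟨w, ⟨L, hL, rfl⟩, hw2, hw3⟩ := hh n
    obtain ⟨l, h1, h2, h3⟩ := dehn_spec rels (32 * n + 4) L hL
      (PresentedGroup.mk_eq_one_iff.mpr hw2)
    have h4 := hw3 l h2 h3
    omega
  exact ⟨k, Γ, H, m, rels, hI, superExp_of (fun _ _ h => dehn_mono rels h) hb, hb⟩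

end Pool.Agent.Results.MP_8cfc4a_al.RaagSuperexpDehn
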